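import Pool.Agent.H979.BK.Stm

/-! # Project BK: S_HIT (helper179) -/

open Filter Topology Finset Pool.Agent.H979.BK

namespace Pool.Agent.H179

section

variable {X I : Type} [Fintype I]

theorem MK_mono (p : I → ℝ) (φ : I → X → X) (hp : ∀ i, 0 ≤ p i) {f g : X → ℝ}
    (h : ∀ x, f x ≤ g x) : ∀ (L : ℕ) (x : X), (MK p φ)^[L] f x ≤ (MK p φ)^[L] g x := by
  intro L
  induction L with
  | zero => exact h
  | succ L ih =>
    intro x
    rw [Function.iterate_succ_apply', Function.iterate_succ_apply']
    exact Finset.sum_le_sum fun i _ => mul_le_mul_of_nonneg_left (ih _) (hp i)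

theorem MK_nonneg (p : I → ℝ) (φ : I → X → X) (hp : ∀ i, 0 ≤ p i) {f : X → ℝ}
    (h : ∀ x, 0 ≤ f x) : ∀ (L : ℕ) (x : X), 0 ≤ (MK p φ)^[L] f x := by
  intro L
  induction L with
  | zero => exact h
  | succ L ih =>
    intro x
    rw [Function.iterate_succ_apply']
    exact Finset.sum_nonneg fun i _ => mul_nonneg (hp i) (ih _)

end

open Classical in
/-- the probability to be in `Al` at some time `≤ L` or to make a bad step before -/
noncomputable def hh {X I : Type} [Fintype I] (p : I → ℝ) (φ : I → X → X) (Al : X → Prop)
    (good : I → X → Prop) : ℕ → X → ℝ
  | 0, x => if Al x then 1 else 0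
  | L + 1, x => if Al x then 1 else
      ∑ i, p i * (if good i x then hh p φ Al good L (φ i x) else 1)

theorem bk_hit : S_HIT := by
  classical
  intro X I _ p φ Al good Nf nrm zf q θ V hp hs hq hθ hV hNf hnrm hbad hAl hmon h2 hfast hzf
  -- crude bound
  have crude : ∀ (L : ℕ) (x : X), (MK p φ)^[L] zf x ≤ V * nrm x := by
    intro L
    induction L with
    | zero => exact hzf
    | succ L ih =>
      intro x
      rw [Function.iterate_succ_apply']
      calc ∑ i, p i * (MK p φ)^[L] zf (φ i x) ≤ ∑ i, p i * (V * nrm x) :=
            Finset.sum_le_sum fun i _ => mul_le_mul_of_nonneg_left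
              ((ih _).trans (mul_le_mul_of_nonneg_left (hmon x i) hV)) (hp i)
        _ = V * nrm x := by rw [← Finset.sum_mul, hs, one_mul]
  -- (a)
  have ha : ∀ (L : ℕ) (x : X), (MK p φ)^[L] zf x ≤
      V * nrm x * hh p φ Al good L x + 2 * V * θ ^ L * Nf x := by
    intro L
    induction L with
    | zero =>
      intro x
      by_cases hx : Al x
      · have e : hh p φ Al good 0 x = 1 := by simp only [hh, if_pos hx]
        rw [e]
        have h0 := hzf x
        have h1 : 0 ≤ 2 * V * θ ^ 0 * Nf x := by have := hNf x; positivity
        change zf x ≤ _
        linarith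
      · have e : hh p φ Al good 0 x = 0 := by simp only [hh, if_neg hx]
        rw [e]
        have h0 := hzf x
        have h1 := mul_le_mul_of_nonneg_left (h2 x hx) hV
        change zf x ≤ _
        rw [pow_zero]
        linarith
    | succ L ih =>
      intro x
      by_cases hx : Al x
      · have e : hh p φ Al good (L + 1) x = 1 := by simp only [hh, if_pos hx]
        rw [e]
        have h0 := crude (L + 1) x
        have h1 : 0 ≤ 2 * V * θ ^ (L + 1) * Nf x := by have := hNf x; positivity
        linarith
      · have e : hh p φ Al good (L + 1) x =
            ∑ i, p i * (if good i x then hh p φ Al good L (φ i x) else 1) := by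
          simp only [hh, if_neg hx]
        rw [e, Function.iterate_succ_apply']
        have hN0 : 0 ≤ 2 * V * θ ^ (L + 1) * Nf x := by have := hNf x; positivity
        have hterm : ∀ i, (MK p φ)^[L] zf (φ i x) ≤
            V * nrm x * (if good i x then hh p φ Al good L (φ i x) else 1) +
              2 * V * θ ^ (L + 1) * Nf x := by
          intro i
          by_cases hg : good i x
          · rw [if_pos hg]
            have h1 := ih (φ i x)
            have hh0 : 0 ≤ hh p φ Al good L (φ i x) := by
              have : ∀ (L : ℕ) (y : X), 0 ≤ hh p φ Al good L y := by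
                intro L
                induction L with
                | zero => intro y; simp only [hh]; split_ifs <;> norm_num
                | succ L ih =>
                  intro y
                  simp only [hh]
                  split_ifs with hy
                  · norm_num
                  · refine Finset.sum_nonneg fun i _ => mul_nonneg (hp i) ?_
                    split_ifs
                    · exact ih _
                    · norm_num
              exact this L _
            have h3 : V * nrm (φ i x) * hh p φ Al good L (φ i x) ≤
                V * nrm x * hh p φ Al good L (φ i x) :=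
              mul_le_mul_of_nonneg_right (mul_le_mul_of_nonneg_left (hmon x i) hV) hh0
            have h4 : 2 * V * θ ^ L * Nf (φ i x) ≤ 2 * V * θ ^ L * (θ * Nf x) :=
              mul_le_mul_of_nonneg_left (hfast x i hx hg) (by positivity)
            have h5 : 2 * V * θ ^ L * (θ * Nf x) = 2 * V * θ ^ (L + 1) * Nf x := by ring
            linarith
          · rw [if_neg hg]
            have h1 := crude L (φ i x)
            have h3 : V * nrm (φ i x) ≤ V * nrm x := mul_le_mul_of_nonneg_left (hmon x i) hV
            linarith
        calc ∑ i, p i * (MK p φ)^[L] zf (φ i x)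
            ≤ ∑ i, p i * (V * nrm x * (if good i x then hh p φ Al good L (φ i x) else 1) +
                2 * V * θ ^ (L + 1) * Nf x) :=
              Finset.sum_le_sum fun i _ => mul_le_mul_of_nonneg_left (hterm i) (hp i)
          _ = V * nrm x * ∑ i, p i * (if good i x then hh p φ Al good L (φ i x) else 1) +
                2 * V * θ ^ (L + 1) * Nf x := by
              simp only [mul_add, Finset.sum_add_distrib]
              rw [← Finset.sum_mul, hs, one_mul, Finset.mul_sum]
              congr 1
              refine Finset.sum_congr rfl fun i _ => by ring
  -- (b)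
  set A1 : X → ℝ := fun y => if Al y then 1 else 0 with hA1
  have hA1nn : ∀ (L : ℕ) (x : X), 0 ≤ (MK p φ)^[L] A1 x :=
    MK_nonneg p φ hp (fun x => by simp only [hA1]; split_ifs <;> norm_num)
  have hb1 : ∀ (L : ℕ) (x : X), Al x → 1 - L * q ≤ (MK p φ)^[L] A1 x := by
    intro L
    induction L with
    | zero =>
      intro x hx
      change _ ≤ A1 x
      simp only [hA1, if_pos hx]
      simp
    | succ L ih =>
      intro x hx
      rw [Function.iterate_succ_apply']
      have hterm : ∀ i, 1 - L * q - (if good i x then 0 else 1) ≤ (MK p φ)^[L] A1 (φ i x) := by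
        intro i
        by_cases hg : good i x
        · rw [if_pos hg]
          have := ih _ (hAl x i hx hg)
          linarith
        · rw [if_neg hg]
          have h1 := hA1nn L (φ i x)
          have h2 : 0 ≤ (L : ℝ) * q := by positivity
          linarith
      have hsum : ∑ i, p i * (1 - L * q - (if good i x then (0 : ℝ) else 1)) =
          1 - L * q - ∑ i, p i * (if good i x then (0 : ℝ) else 1) := by
        simp only [mul_sub, Finset.sum_sub_distrib]
        rw [← Finset.sum_mul, hs, ← Finset.sum_mul, hs]
        ring
      have hle : ∑ i, p i * (1 - L * q - (if good i x then (0 : ℝ) else 1)) ≤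
          ∑ i, p i * (MK p φ)^[L] A1 (φ i x) :=
        Finset.sum_le_sum fun i _ => mul_le_mul_of_nonneg_left (hterm i) (hp i)
      have h3 := hbad x
      change _ ≤ ∑ i, p i * (MK p φ)^[L] A1 (φ i x)
      push_cast
      linarith
  have hb : ∀ (L : ℕ) (x : X), hh p φ Al good L x ≤ (MK p φ)^[L] A1 x + L * q := by
    intro L
    induction L with
    | zero =>
      intro x
      change _ ≤ A1 x + _
      simp only [hh, hA1]
      simp
    | succ L ih =>
      intro x
      by_cases hx : Al x
      · have e : hh p φ Al good (L + 1) x = 1 := by simp only [hh, if_pos hx]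
        rw [e]
        have := hb1 (L + 1) x hx
        linarith
      · have e : hh p φ Al good (L + 1) x =
            ∑ i, p i * (if good i x then hh p φ Al good L (φ i x) else 1) := by
          simp only [hh, if_neg hx]
        rw [e, Function.iterate_succ_apply']
        have hterm : ∀ i, (if good i x then hh p φ Al good L (φ i x) else 1) ≤
            (MK p φ)^[L] A1 (φ i x) + (L * q + (if good i x then 0 else 1)) := by
          intro i
          by_cases hg : good i x
          · rw [if_pos hg, if_pos hg]
            have := ih (φ i x)
            linarith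
          · rw [if_neg hg, if_neg hg]
            have h1 := hA1nn L (φ i x)
            have h2 : 0 ≤ (L : ℝ) * q := by positivity
            linarith
        have h3 := hbad x
        have hle : ∑ i, p i * (if good i x then hh p φ Al good L (φ i x) else 1) ≤
            ∑ i, p i * ((MK p φ)^[L] A1 (φ i x) + (L * q + (if good i x then (0 : ℝ) else 1))) :=
          Finset.sum_le_sum fun i _ => mul_le_mul_of_nonneg_left (hterm i) (hp i)
        have hsum : ∑ i, p i * ((MK p φ)^[L] A1 (φ i x) +
            (L * q + (if good i x then (0 : ℝ) else 1))) =
            ∑ i, p i * (MK p φ)^[L] A1 (φ i x) + (L * q +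
              ∑ i, p i * (if good i x then (0 : ℝ) else 1)) := by
          simp only [mul_add, Finset.sum_add_distrib]
          rw [← Finset.sum_mul, hs]
          ring
        change _ ≤ ∑ i, p i * (MK p φ)^[L] A1 (φ i x) + _
        push_cast
        linarith
  intro L x
  have h1 := ha L x
  have h2' := mul_le_mul_of_nonneg_left (hb L x) (mul_nonneg hV (hnrm x))
  change _ ≤ V * nrm x * ((MK p φ)^[L] A1 x + L * q) + _
  linarith

end Pool.Agent.H179
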