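import Pool.Agent.H724.EZ.Stm3

/-!
EZ2-INEQ2 (helper179, for helper724): two disjoint long segments have different values
-/

set_option autoImplicit false

namespace Pool.Agent.H179.EZ

open Pool.Agent.H724.EZ

theorem xi_succ {M : Type} [Group M] (k : ℕ → M) (a : ℕ) : xi k (a + 1) = xi k a * k a := by
  unfold xi
  rw [List.range_succ, List.map_append, List.prod_append]
  simp

theorem Bn_mono {M : Type} [Group M] (B : Finset M) {a b : ℕ} (h : a ≤ b) : Bn B a ⊆ Bn B b := by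
  rintro x ⟨l, h1, h2, h3⟩
  exact ⟨l, h1.trans h, h2, h3⟩

theorem xi_diff {M : Type} [Group M] (B : Finset M) (k : ℕ → M) (hk : ∀ t, k t ∈ B) (a d : ℕ) :
    (xi k a)⁻¹ * xi k (a + d) ∈ Bn B d := by
  induction d with
  | zero => exact ⟨[], le_rfl, fun b hb => absurd hb List.not_mem_nil, by simp⟩
  | succ d ih =>
    obtain ⟨l, h1, h2, h3⟩ := ih
    refine ⟨l ++ [k (a + d)], ?_, ?_, ?_⟩
    · rw [List.length_append]
      simpa using h1
    · intro b hb
      rcases List.mem_append.1 hb with hb | hb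
      · exact h2 b hb
      · rw [List.mem_singleton.1 hb]
        exact hk _
    · rw [List.prod_append, h3, List.prod_singleton, ← add_assoc, xi_succ, mul_assoc]

theorem xi_mem {M : Type} [Group M] (B : Finset M) (k : ℕ → M) (hk : ∀ t, k t ∈ B) (a : ℕ) :
    xi k a ∈ Subgroup.closure (B : Set M) := by
  induction a with
  | zero => simp [xi]
  | succ a ih =>
    rw [xi_succ]
    exact mul_mem ih (Subgroup.subset_closure (hk a))

theorem xi_comm {M : Type} [Group M] (k : ℕ → M) (g : M) (hg : ∀ t, g * k t = k t * g) (a : ℕ) :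
    g * xi k a = xi k a * g := by
  induction a with
  | zero => simp [xi]
  | succ a ih => rw [xi_succ, ← mul_assoc, ih, mul_assoc, hg, mul_assoc]

theorem ineq2 : S_INEQ2 := by
  intro G M _ _ j B _ n hn1 hmono Φ hΦ k hk R hgeo T hT p q p' q' Ns Ne Ns' Ne' κs κe κs' κe'
    hpq hqp' hp'q' hR hNs hNe hNe2 hNs' hNe' hc hd heq
  -- sums
  have hsum : ∀ a b : ℕ, a ≤ b → ∑ i ∈ Finset.range a, n i ≤ ∑ i ∈ Finset.range b, n i :=
    fun a b h => Finset.sum_le_sum_of_subset_of_nonneg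
      (Finset.range_mono h) fun _ _ _ => Nat.zero_le _
  have h1 : Ns ≤ Ne := hNs.trans ((hsum _ _ (by omega)).trans hNe)
  have h2 : ∑ i ∈ Finset.range (p' + 1), n i + n (q' - 1) ≤ ∑ i ∈ Finset.range q', n i := by
    have h3 := hsum (p' + 1) (q' - 1) (by omega)
    have h4 : ∑ i ∈ Finset.range q', n i = ∑ i ∈ Finset.range (q' - 1), n i + n (q' - 1) := by
      conv_lhs => rw [show q' = (q' - 1) + 1 by omega]
      rw [Finset.sum_range_succ]
    omega
  have h3 : n (q + 1) ≤ n (q' - 1) := hmono (by omega)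
  have h4 := hn1 (q + 1)
  -- the commutation relations
  have hcT : ∀ i a, T i * xi k a = xi k a * T i := fun i a => xi_comm k (T i) (hT i) a
  have hcI : ∀ i a, (T i)⁻¹ * xi k a = xi k a * (T i)⁻¹ := fun i a => by
    rw [inv_mul_eq_iff_eq_mul, ← mul_assoc, hcT, mul_assoc, mul_inv_cancel, mul_one]
  have key : ∀ (a b : ℕ) (s e : ℕ) (u v : G),
      (j (T a * xi k s) * u)⁻¹ * (j (T b * xi k e) * v) =
        u⁻¹ * j ((T a)⁻¹ * T b) * j ((xi k s)⁻¹ * xi k e) * v := by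
    intro a b s e u v
    have e1 : (T a * xi k s)⁻¹ * (T b * xi k e) = (T a)⁻¹ * T b * ((xi k s)⁻¹ * xi k e) := by
      have e2 : ((T a)⁻¹ * T b) * xi k s = xi k s * ((T a)⁻¹ * T b) := by
        rw [mul_assoc, hcT, ← mul_assoc, hcI, mul_assoc]
      have e3 : (xi k s)⁻¹ * ((T a)⁻¹ * T b) = ((T a)⁻¹ * T b) * (xi k s)⁻¹ := by
        rw [inv_mul_eq_iff_eq_mul, ← mul_assoc, ← e2, mul_assoc, mul_inv_cancel, mul_one]
      rw [mul_inv_rev]
      calc (xi k s)⁻¹ * (T a)⁻¹ * (T b * xi k e)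
          = ((xi k s)⁻¹ * ((T a)⁻¹ * T b)) * xi k e := by simp only [mul_assoc]
        _ = _ := by rw [e3]; simp only [mul_assoc]
    rw [mul_inv_rev]
    calc u⁻¹ * (j (T a * xi k s))⁻¹ * (j (T b * xi k e) * v)
        = u⁻¹ * ((j (T a * xi k s))⁻¹ * j (T b * xi k e)) * v := by simp only [mul_assoc]
      _ = _ := by
        rw [← map_inv, ← map_mul, e1, map_mul j ((T a)⁻¹ * T b)]
        simp only [mul_assoc]
  rw [key, key] at heq
  have hz : j ((xi k Ns')⁻¹ * xi k Ne') =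
      (j ((T p')⁻¹ * T q'))⁻¹ * κs' * κs⁻¹ * j ((T p)⁻¹ * T q) * j ((xi k Ns)⁻¹ * xi k Ne) *
        (κe * κe'⁻¹) := by
    have e1 : j ((xi k Ns')⁻¹ * xi k Ne') = (j ((T p')⁻¹ * T q'))⁻¹ * κs' *
        (κs'⁻¹ * j ((T p')⁻¹ * T q') * j ((xi k Ns')⁻¹ * xi k Ne') * κe') * κe'⁻¹ := by
      simp only [mul_assoc, mul_inv_cancel, mul_one, mul_inv_cancel_left, inv_mul_cancel_left]
    rw [e1, ← heq]
    simp only [mul_assoc]
  have hx : (xi k Ns)⁻¹ * xi k Ne ∈ Bn B (∑ i ∈ Finset.range (q + 1), n i) := by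
    have h5 := xi_diff B k hk Ns (Ne - Ns)
    rw [Nat.add_sub_cancel' h1] at h5
    exact Bn_mono B (by omega) h5
  have hzm : (xi k Ns')⁻¹ * xi k Ne' ∈ Subgroup.closure (B : Set M) :=
    mul_mem (inv_mem (xi_mem B k hk _)) (xi_mem B k hk _)
  have h6 := hΦ q _ _ _ _ hx hzm hc hd hz
  exact hgeo Ns' Ne' (by omega) hR (Bn_mono B (by omega) h6)

end Pool.Agent.H179.EZ
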