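import Pool.Agent.H867.FT.Gen10
import Pool.Agent.H671.FT867LFR
import Pool.Agent.H187.FT867FFI

/-!
# FTX HTO: Cartier maps at height one primes
-/

set_option autoImplicit false

namespace Pool.Agent.H179.FT867HTO

open Pool.Agent.H867.FT

/-- iterates of a finite Frobenius are finite -/
theorem iter_fin (p : ℕ) [Fact p.Prime] (A : Type) [CommRing A] [CharP A p]
    (h : (frobenius A p).Finite) (e : ℕ) : (iterateFrobenius A p e).Finite := by
  induction e with
  | zero =>
    rw [iterateFrobenius_zero]
    exact RingHom.Finite.id A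
  | succ n ih =>
    have h2 : iterateFrobenius A p (n + 1) = (frobenius A p).comp (iterateFrobenius A p n) := by
      ext x
      rw [RingHom.comp_apply, iterateFrobenius_def, iterateFrobenius_def, frobenius_def, ← pow_mul,
        pow_succ]
    rw [h2]
    exact h.comp ih

/-- finitely many generators of a finite ring homomorphism -/
theorem of_fin {A B : Type} [CommRing A] [CommRing B] (f : A →+* B) (hf : f.Finite) :
    ∃ (n : ℕ) (m : Fin n → B), ∀ b, ∃ c : Fin n → A, b = ∑ i, f (c i) * m i := by
  letI : Algebra A B := f.toAlgebra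
  haveI : Module.Finite A B := hf
  obtain ⟨n, m, hm⟩ := Module.Finite.exists_fin (R := A) (M := B)
  refine ⟨n, m, fun b => ?_⟩
  have hb : b ∈ Submodule.span A (Set.range m) := by
    rw [hm]
    exact Submodule.mem_top
  obtain ⟨c, hc⟩ := (Submodule.mem_span_range_iff_exists_fun A).1 hb
  exact ⟨c, hc.symm⟩

/-- an element which is not divisible by the uniformizer has a coordinate which is a unit -/
theorem coord {V W : Type} [CommRing V] [IsDomain V] [IsPrincipalIdealRing V] [CommRing W]
    [IsDomain W] (f : V →+* W) (hf : f.Finite) (hinj : Function.Injective f) (ϖ : V)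
    (hϖ : ∀ v, ¬ IsUnit v → ϖ ∣ v) (c : W) (hc : ¬ f ϖ ∣ c) :
    ∃ φ : W →+ V, (∀ v w, φ (f v * w) = v * φ w) ∧ IsUnit (φ c) := by
  letI : Algebra V W := f.toAlgebra
  haveI : Module.Finite V W := hf
  haveI : FaithfulSMul V W := (faithfulSMul_iff_algebraMap_injective V W).2 hinj
  haveI : Module.IsTorsionFree V W := inferInstance
  haveI : Module.Free V W := Module.free_of_finite_type_torsion_free'
  let b := Module.Free.chooseBasis V W
  have hex : ∃ i, IsUnit (b.repr c i) := by
    by_contra hno
    push Not at hno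
    apply hc
    have h1 : ∀ i, ϖ ∣ b.repr c i := fun i => hϖ _ (hno i)
    rw [← b.sum_repr c]
    refine Finset.dvd_sum fun i _ => ?_
    obtain ⟨w, hw⟩ := h1 i
    refine ⟨f w * b i, ?_⟩
    rw [hw, Algebra.smul_def]
    show f (ϖ * w) * b i = _
    rw [map_mul, mul_assoc]
  obtain ⟨i, hi⟩ := hex
  refine ⟨(b.coord i).toAddMonoidHom, ?_, hi⟩
  intro v w
  show b.repr (f v * w) i = v * b.repr w i
  have h2 : f v * w = v • w := by
    rw [Algebra.smul_def]
    rfl
  rw [h2, map_smul, Finsupp.smul_apply, smul_eq_mul]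

theorem hto : Pool.Agent.H867.FT.S_HTO := by
  intro p _ R _ _ _ _ _ hF 𝔭 h𝔭 hh c hc
  haveI := h𝔭
  have hdvr := Pool.Agent.H671.FTLFR.isDVR R 𝔭 hh
  let V := Localization.AtPrime 𝔭
  have hinj : Function.Injective (algebraMap R V) :=
    IsLocalization.injective V (Ideal.primeCompl_le_nonZeroDivisors 𝔭)
  haveI : CharP V p := charP_of_injective_algebraMap hinj p
  have hFV : (frobenius V p).Finite :=
    Pool.Agent.H187.FT867FFI.frob_localization p R V 𝔭.primeCompl hF
  obtain ⟨ϖ, hϖ⟩ := IsDiscreteValuationRing.exists_irreducible V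
  have hc' : algebraMap R V c ≠ 0 := (map_ne_zero_iff _ hinj).2 hc
  obtain ⟨m, u, hu⟩ := IsDiscreteValuationRing.eq_unit_mul_pow_irreducible hc' hϖ
  have hm : ¬ ϖ ^ (m + 1) ∣ algebraMap R V c := by
    rw [hu]
    intro h
    have h1 : ϖ ^ (m + 1) ∣ ϖ ^ m := (Units.dvd_mul_left).1 h
    exact absurd ((pow_dvd_pow_iff hϖ.ne_zero hϖ.not_isUnit).1 h1) (by omega)
  set e := m + 1 with he
  have hpe : m + 1 ≤ p ^ e := le_of_lt (Nat.lt_pow_self (Fact.out : p.Prime).one_lt)
  have hf : (iterateFrobenius V p e).Finite := iter_fin p V hFV e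
  have hfi : Function.Injective (iterateFrobenius V p e) := iterateFrobenius_inj V p e
  obtain ⟨φV, hφ1, hφ2⟩ := coord (iterateFrobenius V p e) hf hfi ϖ
    (fun v hv => by
      have h1 : v ∈ IsLocalRing.maximalIdeal V := (IsLocalRing.mem_maximalIdeal v).2 hv
      rw [hϖ.maximalIdeal_eq, Ideal.mem_span_singleton] at h1
      exact h1)
    (algebraMap R V c)
    (by
      rw [iterateFrobenius_def]
      exact fun h => hm ((pow_dvd_pow ϖ hpe).trans h))
  obtain ⟨n, g, hg⟩ := of_fin (iterateFrobenius R p e) (iter_fin p R hF e)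
  obtain ⟨s, hs⟩ := IsLocalization.exist_integer_multiples_of_finite 𝔭.primeCompl
    (fun j => φV (algebraMap R V (g j)))
  have hex : ∀ r : R, ∃ r' : R, algebraMap R V r' = algebraMap R V s * φV (algebraMap R V r) := by
    intro r
    obtain ⟨a, ha⟩ := hg r
    choose t ht using hs
    refine ⟨∑ j, a j * t j, ?_⟩
    rw [ha, map_sum, map_sum, map_sum, Finset.mul_sum]
    refine Finset.sum_congr rfl fun j _ => ?_
    have h1 : algebraMap R V (iterateFrobenius R p e (a j) * g j) =
        iterateFrobenius V p e (algebraMap R V (a j)) * algebraMap R V (g j) := by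
      rw [map_mul, iterateFrobenius_def, iterateFrobenius_def, map_pow]
    rw [h1, hφ1, map_mul, ht j, Algebra.smul_def]
    ring
  choose G hG using hex
  let φ : R →+ R := AddMonoidHom.mk' G (fun a b => by
    apply hinj
    rw [hG, map_add, map_add, map_add, hG, hG, mul_add])
  refine ⟨e, φ, ?_, ?_⟩
  · intro r x
    apply hinj
    show algebraMap R V (G (r ^ p ^ e * x)) = algebraMap R V (r * G x)
    have h1 : algebraMap R V (r ^ p ^ e * x) =
        iterateFrobenius V p e (algebraMap R V r) * algebraMap R V x := by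
      rw [map_mul, iterateFrobenius_def, map_pow]
    rw [hG, h1, hφ1, map_mul, hG]
    ring
  · intro hmem
    have h1 : IsUnit (algebraMap R V (G c)) := by
      rw [hG]
      exact (IsLocalization.map_units V s).mul hφ2
    have h2 : G c ∈ 𝔭.primeCompl := (IsLocalization.AtPrime.isUnit_to_map_iff V 𝔭 (G c)).1 h1
    exact h2 hmem

end Pool.Agent.H179.FT867HTO
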